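import Mathlib

/-!
Project TQ of helper20 (MP_176ace_nt): (ZZ), a part of (CL) of helper52.
-/

set_option autoImplicit false

namespace Pool.Agent.J4H57.TQ

open Polynomial

theorem zz (m n : ℕ) (hn : Odd n) : ∃ z : Fin (n - 1) → ℂ, Function.Injective z ∧
    ∀ j, z j ≠ 0 ∧ (z j).im ≠ 0 ∧ aeval (z j) (X ^ (2 * m) * (X ^ n - (X - 1) ^ n) : ℝ[X]) = 0 ∧
      aeval (z j) (derivative (X ^ (2 * m) * (X ^ n - (X - 1) ^ n) : ℝ[X])) ≠ 0 := by
  have hn0 : n ≠ 0 := hn.pos.ne'
  obtain ⟨ω, hω⟩ : ∃ ω : ℂ, ω = Complex.exp (2 * Real.pi * Complex.I / n) := ⟨_, rfl⟩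
  have hprim : IsPrimitiveRoot ω n := by rw [hω]; exact Complex.isPrimitiveRoot_exp n hn0
  obtain ⟨w, hw⟩ : ∃ w : Fin (n - 1) → ℂ, w = fun j : Fin (n - 1) => ω ^ ((j : ℕ) + 1) := ⟨_, rfl⟩
  have hwn : ∀ j, w j ^ n = 1 := by
    intro j
    rw [hw]
    show (ω ^ ((j : ℕ) + 1)) ^ n = 1
    rw [← pow_mul, mul_comm, pow_mul, hprim.pow_eq_one, one_pow]
  have hw0 : ∀ j, w j ≠ 0 := fun j h => by
    have := hwn j
    rw [h, zero_pow hn0] at this
    exact zero_ne_one this
  have hw1 : ∀ j, w j ≠ 1 := by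
    intro j h
    rw [hw] at h
    have h1 : n ∣ (j : ℕ) + 1 := (hprim.pow_eq_one_iff_dvd _).mp h
    have := Nat.le_of_dvd (Nat.succ_pos _) h1
    have := j.2
    omega
  have hd : ∀ j, w j - 1 ≠ 0 := fun j => sub_ne_zero.mpr (hw1 j)
  have hwi : Function.Injective w := by
    intro i j hij
    rw [hw] at hij
    have := hprim.pow_inj (i := (i : ℕ) + 1) (j := (j : ℕ) + 1) (by have := i.2; omega)
      (by have := j.2; omega) hij
    exact Fin.ext (by omega)
  obtain ⟨z, hz⟩ : ∃ z : Fin (n - 1) → ℂ, z = fun j => w j / (w j - 1) := ⟨_, rfl⟩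
  have hzj : ∀ j, z j = w j / (w j - 1) := fun j => by rw [hz]
  have hz1 : ∀ j, z j - 1 = 1 / (w j - 1) := by
    intro j
    rw [hzj]; field_simp [hd j]; ring
  have hz1' : ∀ j, z j - 1 ≠ 0 := fun j => by rw [hz1]; exact one_div_ne_zero (hd j)
  have hzw : ∀ j, w j = z j / (z j - 1) := by
    intro j
    rw [hz1, hzj]; field_simp [hd j]
  have hz0 : ∀ j, z j ≠ 0 := fun j => by rw [hzj]; exact div_ne_zero (hw0 j) (hd j)
  refine ⟨z, ?_, fun j => ⟨hz0 j, ?_, ?_, ?_⟩⟩
  · intro i j hij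
    apply hwi
    rw [hzw i, hzw j, hij]
  · intro him
    have h1 : (starRingEnd ℂ) (z j) = z j := Complex.conj_eq_iff_im.mpr him
    have h2 : (starRingEnd ℂ) (w j) = w j := by
      conv_lhs => rw [hzw j]
      rw [map_div₀, map_sub, map_one, h1, ← hzw j]
    obtain ⟨r, hr⟩ := Complex.conj_eq_iff_real.mp h2
    have h3 := hwn j
    rw [hr] at h3
    have h4 : r ^ n = 1 := by exact_mod_cast h3
    have h5 : r = 1 := hn.strictMono_pow.injective (by simpa using h4)
    exact hw1 j (by rw [hr, h5]; simp)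
  · have h1 : z j ^ n - (z j - 1) ^ n = 0 := by
      rw [hz1, hzj, div_pow, div_pow, one_pow, hwn, sub_self]
    simp only [map_mul, map_sub, map_pow, aeval_X, map_one]
    rw [h1, mul_zero]
  · have h1 : z j ^ n - (z j - 1) ^ n = 0 := by
      rw [hz1, hzj, div_pow, div_pow, one_pow, hwn, sub_self]
    have h2 : aeval (z j) (derivative (X ^ (2 * m) * (X ^ n - (X - 1) ^ n) : ℝ[X])) =
        z j ^ (2 * m) * (n * (z j ^ (n - 1) - (z j - 1) ^ (n - 1))) := by
      rw [derivative_mul, map_add, map_mul, map_mul]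
      have h3 : aeval (z j) (X ^ n - (X - 1) ^ n : ℝ[X]) = 0 := by
        simp only [map_sub, map_pow, aeval_X, map_one]; exact h1
      rw [h3, mul_zero, zero_add]
      simp only [derivative_sub, derivative_X_pow, derivative_pow, derivative_X, derivative_one,
        sub_zero, mul_one, map_sub, map_mul, map_pow, aeval_X, map_one, map_natCast, aeval_C]
      ring
    rw [h2]
    refine mul_ne_zero (pow_ne_zero _ (hz0 j)) (mul_ne_zero (by exact_mod_cast hn0) ?_)
    rw [sub_ne_zero]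
    intro h
    have h3 : w j ^ (n - 1) = 1 := by
      rw [hzw j, div_pow, h, div_self (pow_ne_zero _ (hz1' j))]
    have h4 : w j ^ n = w j := by
      have : w j ^ n = w j ^ (n - 1) * w j := by
        rw [← pow_succ, Nat.sub_add_cancel (Nat.pos_of_ne_zero hn0)]
      rw [this, h3, one_mul]
    rw [hwn j] at h4
    exact hw1 j h4.symm

end Pool.Agent.J4H57.TQ
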