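import Pool.Agent.J4H20.TQ.Stm

/-!
Project TQ of helper20 (MP_176ace_nt): (PL).
-/

set_option autoImplicit false

namespace Pool.Agent.J4H57.TQ

open Polynomial Filter Topology Pool.Agent.J4H20.TQ

/-- a root near a point where the polynomial is small and the derivative is not -/
lemma near_root (S : ℂ[X]) (z : ℂ) (n : ℕ) (hn : S.natDegree ≤ n) (hd : S.derivative.eval z ≠ 0) :
    ∃ ζ : ℂ, S.eval ζ = 0 ∧ ‖ζ - z‖ ≤ n * ‖S.eval z‖ / ‖S.derivative.eval z‖ := by
  by_cases h0 : S.eval z = 0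
  · exact ⟨z, h0, by simp [h0]⟩
  have hsum := (IsAlgClosed.splits S).eval_derivative_div_eval_of_ne_zero h0
  have hne : S ≠ 0 := by rintro rfl; simp at h0
  have hr : S.roots ≠ 0 := by
    intro h
    rw [h] at hsum
    simp only [Multiset.map_zero, Multiset.sum_zero, div_eq_zero_iff] at hsum
    rcases hsum with h | h
    · exact hd h
    · exact h0 h
  obtain ⟨r, hr0⟩ := Multiset.exists_mem_of_ne_zero hr
  obtain ⟨ζ, hζ, hmin⟩ := S.roots.toFinset.exists_min_image (fun r => ‖z - r‖)
    ⟨r, Multiset.mem_toFinset.mpr hr0⟩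
  rw [Multiset.mem_toFinset, mem_roots hne, IsRoot.def] at hζ
  refine ⟨ζ, hζ, ?_⟩
  have hm0 : 0 < ‖z - ζ‖ := by
    rw [norm_pos_iff, sub_ne_zero]
    rintro rfl
    exact h0 hζ
  have hS0 : 0 < ‖S.eval z‖ := norm_pos_iff.mpr h0
  have hD0 : 0 < ‖S.derivative.eval z‖ := norm_pos_iff.mpr hd
  have h1 : ‖S.derivative.eval z / S.eval z‖ ≤ n / ‖z - ζ‖ := by
    rw [hsum]
    refine (norm_multiset_sum_le _).trans ?_
    rw [Multiset.map_map]
    refine (Multiset.sum_le_card_nsmul _ (1 / ‖z - ζ‖) ?_).trans ?_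
    · intro x hx
      rw [Multiset.mem_map] at hx
      obtain ⟨y, hy, rfl⟩ := hx
      simp only [Function.comp_apply, norm_div, norm_one]
      exact one_div_le_one_div_of_le hm0 (hmin y (Multiset.mem_toFinset.mpr hy))
    · rw [Multiset.card_map, nsmul_eq_mul, mul_one_div]
      refine div_le_div_of_nonneg_right ?_ hm0.le
      exact_mod_cast (card_roots' S).trans hn
  rw [norm_div, div_le_div_iff₀ hS0 hm0] at h1
  rw [norm_sub_rev, le_div_iff₀ hD0]
  linarith

lemma tendsto_eval (S : ℕ → ℂ[X]) (Q : ℂ[X]) (n : ℕ) (hS : ∀ k, (S k).natDegree ≤ n)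
    (h : ∀ d, Tendsto (fun k => (S k).coeff d) atTop (𝓝 (Q.coeff d))) (z : ℂ) :
    Tendsto (fun k => (S k).eval z) atTop (𝓝 (Q.eval z)) := by
  have hQ : Q.natDegree ≤ n := by
    rw [natDegree_le_iff_coeff_eq_zero]
    intro N hN
    have h1 : (fun k => (S k).coeff N) = fun _ => 0 := by
      ext k
      exact coeff_eq_zero_of_natDegree_lt ((hS k).trans_lt hN)
    have h2 := h N
    rw [h1] at h2
    exact tendsto_nhds_unique h2 tendsto_const_nhds
  have e : ∀ p : ℂ[X], p.natDegree ≤ n → p.eval z = ∑ i ∈ Finset.range (n + 1), p.coeff i * z ^ i :=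
    fun p hp => eval_eq_sum_range' (Nat.lt_succ_of_le hp) z
  rw [e Q hQ]
  refine Tendsto.congr (fun k => (e (S k) (hS k)).symm) ?_
  exact tendsto_finsetSum _ fun i _ => (h i).mul_const _

/-- one place -/
theorem exists_zeta (n : ℕ) (P : ℕ → ℝ[X]) (u v c : ℕ → ℝ) (Q : ℝ[X]) (z : ℂ)
    (hP : ∀ k, (P k).natDegree ≤ n)
    (hlim : ∀ d, Tendsto (fun k => c k * ((P k).comp (C (u k) + C (v k) * X)).coeff d) atTop
      (𝓝 (Q.coeff d)))
    (hz0 : aeval z Q = 0) (hz1 : aeval z (derivative Q) ≠ 0) :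
    ∃ ζ : ℕ → ℂ, Tendsto ζ atTop (𝓝 z) ∧
      ∀ᶠ k in atTop, aeval ((u k : ℂ) + v k * ζ k) (P k) = 0 := by
  obtain ⟨S, hSdef⟩ : ∃ S : ℕ → ℂ[X], S = fun k =>
    (C (c k) * (P k).comp (C (u k) + C (v k) * X)).map (algebraMap ℝ ℂ) := ⟨_, rfl⟩
  have hSn : ∀ k, (S k).natDegree ≤ n := by
    intro k
    rw [hSdef]
    refine natDegree_map_le.trans ((natDegree_C_mul_le _ _).trans ?_)
    refine natDegree_comp_le.trans ?_
    have h1 : (C (u k) + C (v k) * X : ℝ[X]).natDegree ≤ 1 := by
      rw [add_comm]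
      exact natDegree_linear_le
    calc (P k).natDegree * (C (u k) + C (v k) * X : ℝ[X]).natDegree ≤ n * 1 :=
          Nat.mul_le_mul (hP k) h1
      _ = n := mul_one n
  have hSc : ∀ d, Tendsto (fun k => (S k).coeff d) atTop (𝓝 ((Q.map (algebraMap ℝ ℂ)).coeff d)) := by
    intro d
    rw [coeff_map, Complex.coe_algebraMap]
    have := (Complex.continuous_ofReal.tendsto (Q.coeff d)).comp (hlim d)
    refine this.congr fun k => ?_
    rw [hSdef]
    simp only [Function.comp_apply, coeff_map, coeff_C_mul, Complex.coe_algebraMap]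
  have hE := tendsto_eval S (Q.map (algebraMap ℝ ℂ)) n hSn hSc z
  have hD := tendsto_eval (fun k => (S k).derivative) (Q.map (algebraMap ℝ ℂ)).derivative n
    (fun k => (natDegree_derivative_le _).trans ((Nat.sub_le _ _).trans (hSn k))) (fun d => by
      simp only [coeff_derivative]
      exact (hSc (d + 1)).mul_const _) z
  have hQ0 : (Q.map (algebraMap ℝ ℂ)).eval z = 0 := by
    rw [← eval₂_eq_eval_map]; exact hz0
  have hQ1 : (Q.map (algebraMap ℝ ℂ)).derivative.eval z ≠ 0 := by
    rw [derivative_map, ← eval₂_eq_eval_map]; exact hz1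
  rw [hQ0] at hE
  have hch : ∀ k, ∃ ζ : ℂ, ‖ζ - z‖ ≤ n * ‖(S k).eval z‖ / ‖(S k).derivative.eval z‖ ∧
      ((S k).derivative.eval z ≠ 0 → (S k).eval ζ = 0) := by
    intro k
    by_cases h : (S k).derivative.eval z ≠ 0
    · obtain ⟨ζ, h1, h2⟩ := near_root (S k) z n (hSn k) h
      exact ⟨ζ, h2, fun _ => h1⟩
    · exact ⟨z, by rw [sub_self, norm_zero]; positivity, fun h' => absurd h' h⟩
  choose ζ hζ1 hζ2 using hch
  refine ⟨ζ, ?_, ?_⟩
  · rw [tendsto_iff_norm_sub_tendsto_zero]
    have h1 : Tendsto (fun k => n * ‖(S k).eval z‖ / ‖(S k).derivative.eval z‖) atTop (𝓝 0) := by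
      have := (hE.norm.const_mul (n : ℝ)).div hD.norm (norm_ne_zero_iff.mpr hQ1)
      rw [norm_zero, mul_zero, zero_div] at this
      exact this
    exact squeeze_zero (fun _ => norm_nonneg _) hζ1 h1
  · filter_upwards [hD.eventually_ne hQ1] with k hk
    have h1 := hζ2 k hk
    have hc : c k ≠ 0 := by
      intro hc
      apply hk
      rw [hSdef]
      simp [hc]
    rw [hSdef] at h1
    have h2 : ((C (c k) * (P k).comp (C (u k) + C (v k) * X)).map (algebraMap ℝ ℂ)).eval (ζ k) =
        (c k : ℂ) * aeval ((u k : ℂ) + v k * ζ k) (P k) := by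
      rw [← eval₂_eq_eval_map, ← aeval_def, map_mul, aeval_C, aeval_comp]
      simp
    rw [h2] at h1
    rcases mul_eq_zero.mp h1 with h | h
    · exact absurd (by exact_mod_cast h) hc
    · exact h

/-- `n` different roots of a polynomial of degree at most `n` -/
lemma all_roots {ι : Type} [Fintype ι] (P : ℝ[X]) (hP : P ≠ 0) (hn : P.natDegree ≤ Fintype.card ι)
    (w : ι → ℂ) (hw : Function.Injective w) (h : ∀ i, aeval (w i) P = 0) :
    (∀ x : ℂ, aeval x P = 0 → ∃ i, w i = x) ∧ ∀ i, aeval (w i) (derivative P) ≠ 0 := by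
  classical
  obtain ⟨R, hR⟩ : ∃ R : ℂ[X], R = P.map (algebraMap ℝ ℂ) := ⟨_, rfl⟩
  have hR0 : R ≠ 0 := by
    rw [hR]; exact (Polynomial.map_ne_zero_iff (algebraMap ℝ ℂ).injective).mpr hP
  have hRn : R.natDegree ≤ Fintype.card ι := by rw [hR]; exact natDegree_map_le.trans hn
  have hev : ∀ x : ℂ, aeval x P = R.eval x := by
    intro x; rw [hR, ← eval₂_eq_eval_map, aeval_def]
  have hmem : ∀ i, w i ∈ R.roots := by
    intro i
    rw [mem_roots hR0, IsRoot.def, ← hev]; exact h i
  obtain ⟨W, hW⟩ : ∃ W : Finset ℂ, W = Finset.univ.image w := ⟨_, rfl⟩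
  have hWc : W.card = Fintype.card ι := by
    rw [hW, Finset.card_image_of_injective _ hw, Finset.card_univ]
  have hWsub : W ⊆ R.roots.toFinset := by
    intro x hx
    rw [hW, Finset.mem_image] at hx
    obtain ⟨i, -, rfl⟩ := hx
    exact Multiset.mem_toFinset.mpr (hmem i)
  have h1 : R.roots.toFinset.card ≤ R.roots.card := Multiset.toFinset_card_le _
  have h2 : R.roots.card ≤ Fintype.card ι := (card_roots' R).trans hRn
  have h3 : W.card ≤ R.roots.toFinset.card := Finset.card_le_card hWsub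
  have hWeq : W = R.roots.toFinset := Finset.eq_of_subset_of_card_le hWsub (by omega)
  have hnodup : R.roots.Nodup := Multiset.toFinset_card_eq_card_iff_nodup.mp (by omega)
  refine ⟨fun x hx => ?_, fun i hi => ?_⟩
  · have : x ∈ W := by
      rw [hWeq, Multiset.mem_toFinset, mem_roots hR0, IsRoot.def, ← hev]; exact hx
    rw [hW, Finset.mem_image] at this
    obtain ⟨i, -, h⟩ := this
    exact ⟨i, h⟩
  · have h4 : 1 < R.rootMultiplicity (w i) := by
      rw [one_lt_rootMultiplicity_iff_isRoot hR0]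
      refine ⟨(mem_roots hR0).mp (hmem i), ?_⟩
      rw [IsRoot.def, hR, derivative_map, ← eval₂_eq_eval_map, ← aeval_def]; exact hi
    rw [← count_roots] at h4
    have h5 := Multiset.nodup_iff_count_le_one.mp hnodup (w i)
    omega

theorem t_PL : S_PL := by
  intro ι _ P u v c Q z hP hv hlim hz hsep
  classical
  have h1 : ∀ i, ∃ ζ : ℕ → ℂ, Tendsto ζ atTop (𝓝 (z i)) ∧
      ∀ᶠ k in atTop, aeval ((u i k : ℂ) + v i k * ζ k) (P k) = 0 := fun i =>
    exists_zeta (Fintype.card ι) P (u i) (v i) (c i) (Q i) (z i) (fun k => (hP k).2) (hlim i)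
      (hz i).1 (hz i).2
  choose ζ hζ hroot using h1
  have hinj : ∀ᶠ k in atTop, ∀ i j, i ≠ j → (u i k : ℂ) + v i k * ζ i k ≠ u j k + v j k * ζ j k := by
    rw [eventually_all]; intro i
    rw [eventually_all]; intro j
    by_cases hij : i = j
    · exact Eventually.of_forall fun k h => absurd hij h
    · filter_upwards [hsep i j hij (ζ i) (ζ j) (hζ i) (hζ j)] with k hk _
      exact hk
  have hconj : ∀ᶠ k in atTop, ∀ i j, i ≠ j → (z i).im = 0 →
      (u i k : ℂ) + v i k * (starRingEnd ℂ) (ζ i k) ≠ u j k + v j k * ζ j k := by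
    rw [eventually_all]; intro i
    rw [eventually_all]; intro j
    by_cases hij : i = j
    · exact Eventually.of_forall fun k h => absurd hij h
    by_cases hz0 : (z i).im = 0
    · have h2 : Tendsto (fun k => (starRingEnd ℂ) (ζ i k)) atTop (𝓝 (z i)) := by
        have := (Complex.continuous_conj.tendsto (z i)).comp (hζ i)
        rwa [Complex.conj_eq_iff_im.mpr hz0] at this
      filter_upwards [hsep i j hij _ (ζ j) h2 (hζ j)] with k hk _ _
      exact hk
    · exact Eventually.of_forall fun k _ h => absurd h hz0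
  have hnr : ∀ᶠ k in atTop, ∀ i, (z i).im ≠ 0 → (ζ i k).im ≠ 0 := by
    rw [eventually_all]; intro i
    by_cases hz0 : (z i).im = 0
    · exact Eventually.of_forall fun k h => absurd hz0 h
    · have h2 : Tendsto (fun k => (ζ i k).im) atTop (𝓝 (z i).im) :=
        (Complex.continuous_im.tendsto (z i)).comp (hζ i)
      filter_upwards [h2.eventually_ne hz0] with k hk _
      exact hk
  filter_upwards [eventually_all.mpr hroot, hinj, hconj, hnr] with k k1 k2 k3 k4
  obtain ⟨w, hw⟩ : ∃ w : ι → ℂ, w = fun i => (u i k : ℂ) + v i k * ζ i k := ⟨_, rfl⟩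
  have hwi : Function.Injective w := by
    intro i j hij
    by_contra h
    rw [hw] at hij
    exact k2 i j h hij
  have hw0 : ∀ i, aeval (w i) (P k) = 0 := by rw [hw]; exact k1
  obtain ⟨hall, hder⟩ := all_roots (P k) (hP k).1 (hP k).2 w hwi hw0
  have him : ∀ i, (w i).im = 0 ↔ (z i).im = 0 := by
    intro i
    constructor
    · intro h
      by_contra hz0
      have : (w i).im = v i k * (ζ i k).im := by rw [hw]; simp
      rw [this] at h
      rcases mul_eq_zero.mp h with h | h
      · exact hv i k h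
      · exact k4 i hz0 h
    · intro hz0
      have h2 : aeval ((starRingEnd ℂ) (w i)) (P k) = 0 := by
        have := hw0 i
        rw [aeval_conj, this, map_zero]
      obtain ⟨j, hj⟩ := hall _ h2
      have hij : i = j := by
        by_contra hij
        refine k3 i j hij hz0 ?_
        rw [hw] at hj
        simp only [map_add, map_mul, Complex.conj_ofReal] at hj
        exact hj.symm
      rw [← hij] at hj
      exact Complex.conj_eq_iff_im.mp hj.symm
  refine ⟨⟨w, hwi, fun i => ⟨hw0 i, hder i, him i⟩⟩, ?_⟩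
  have hset : {x : ℝ | (P k).eval x = 0} = (fun i => (w i).re) '' {i | (z i).im = 0} := by
    ext x
    constructor
    · intro hx
      have h2 : aeval ((x : ℝ) : ℂ) (P k) = 0 := by
        have h3 : ((((P k).eval x : ℝ)) : ℂ) = aeval ((x : ℝ) : ℂ) (P k) := by
          have := Polynomial.aeval_algebraMap_apply ℂ x (P k)
          simpa using this.symm
        rw [← h3, Set.mem_ofPred_eq.mp hx, Complex.ofReal_zero]
      obtain ⟨i, hi⟩ := hall _ h2
      refine ⟨i, ?_, ?_⟩
      · rw [Set.mem_ofPred_eq, ← him i, hi, Complex.ofReal_im]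
      · show (w i).re = x
        rw [hi, Complex.ofReal_re]
    · rintro ⟨i, hi, rfl⟩
      rw [Set.mem_ofPred_eq, ← him i] at hi
      have h2 : (((w i).re : ℝ) : ℂ) = w i := Complex.ext (by simp) (by simp [hi])
      have h3 : ((((P k).eval (w i).re : ℝ)) : ℂ) = aeval (((w i).re : ℝ) : ℂ) (P k) := by
        have := Polynomial.aeval_algebraMap_apply ℂ (w i).re (P k)
        simpa using this.symm
      rw [h2, hw0 i] at h3
      exact_mod_cast h3
  rw [hset, Set.InjOn.ncard_image]
  intro i hi j hj hij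
  apply hwi
  rw [Set.mem_ofPred_eq, ← him i] at hi
  rw [Set.mem_ofPred_eq, ← him j] at hj
  exact Complex.ext hij (by rw [hi, hj])

end Pool.Agent.J4H57.TQ
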